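import Pool.Agent.Lib.MP_6f5538_al.BaseBound

/-!
The uniform domination number of the alternating group of degree 14 is smaller than its base size
on 5-subsets, so the equality asked for in the problem fails for `n = 14`.
-/

namespace Pool.Agent.Results.MP_6f5538_al.Degree14

/-- `S` is a total dominating set of `G`: every nontrivial `x` generates `G` together with some
element of `S`. -/
def IsTDS (G : Type) [Group G] (S : Set G) : Prop :=
  ∀ x : G, x ≠ 1 → ∃ s ∈ S, Subgroup.closure {x, s} = ⊤

/-- The uniform domination number: the smallest size of a total dominating set of `G` contained in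
a single conjugacy class. -/
noncomputable def gammaU (G : Type) [Group G] : ℕ :=
  sInf {n : ℕ | ∃ S : Finset G, S.card = n ∧ IsTDS G (S : Set G) ∧
    ∃ s : G, ∀ t ∈ S, IsConj s t}

/-- `B` is a base for the action of `G` on `Ω`: its pointwise stabilizer is trivial. -/
def IsBase (G : Type) {Ω : Type} [Group G] [MulAction G Ω] (B : Set Ω) : Prop :=
  ∀ g : G, (∀ b ∈ B, g • b = b) → g = 1

/-- The base size: the smallest size of a base. -/
noncomputable def baseSize (G Ω : Type) [Group G] [MulAction G Ω] : ℕ :=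
  sInf {n : ℕ | ∃ B : Finset Ω, B.card = n ∧ IsBase G (B : Set Ω)}

open Pool.Agent.Lib.MP_6f5538_al Equiv Equiv.Perm
open scoped Pointwise

theorem sA_apply_zero : ∀ i : Fin 4, ((sA i.val).val 0).val = ![1, 13, 3, 5] i := by
  decide +kernel

theorem sA_type (j : ℕ) : (sA j).val.cycleType = {7, 7} := by
  change ((tau ^ j)⁻¹ * s0 * tau ^ j).cycleType = _
  have h := cycleType_conj (σ := s0) (τ := (tau ^ j)⁻¹)
  rw [inv_inv] at h
  rw [h, s0_type]

/-- the total dominating set -/
noncomputable def S4 : Finset (alternatingGroup (Fin 14)) :=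
  Finset.univ.image (fun i : Fin 4 => sA i.val)

theorem S4_card : S4.card = 4 := by
  unfold S4
  rw [Finset.card_image_of_injective]
  · rfl
  · intro i j hij
    have h1 := sA_apply_zero i
    have h2 := sA_apply_zero j
    have hij' : sA i.val = sA j.val := hij
    rw [hij', h2] at h1
    clear hij hij' h2
    revert i j
    decide

theorem S4_tds : IsTDS (alternatingGroup (Fin 14)) (S4 : Set (alternatingGroup (Fin 14))) := by
  intro x hx
  obtain ⟨j, hj, h⟩ := sA_tds x hx
  refine ⟨sA j, ?_, h⟩
  unfold S4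
  rw [Finset.mem_coe, Finset.mem_image]
  exact ⟨⟨j, hj⟩, Finset.mem_univ _, rfl⟩

theorem S4_mem {s : alternatingGroup (Fin 14)} (h : s ∈ S4) : ∃ j, s = sA j := by
  unfold S4 at h
  rw [Finset.mem_image] at h
  obtain ⟨i, -, rfl⟩ := h
  exact ⟨i.val, rfl⟩

theorem base_bound (B : Finset (Set.powersetCard (Fin 14) 5))
    (hB : IsBase (alternatingGroup (Fin 14)) (B : Set (Set.powersetCard (Fin 14) 5))) :
    5 ≤ B.card := by
  by_contra hcon
  have hlen : B.toList.length ≤ 4 := by
    rw [Finset.length_toList]; omega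
  set d : Set.powersetCard (Fin 14) 5 := ⟨{0, 1, 2, 3, 4}, by
    rw [Set.powersetCard.mem_iff]; decide⟩ with hd
  set b : Fin 4 → Set.powersetCard (Fin 14) 5 := fun i => B.toList.getD i.val d with hb
  obtain ⟨g, hg, hg1, hgb⟩ := exists_even (fun i => (b i).val) (fun i => (b i).2)
  have hgA : g ∈ alternatingGroup (Fin 14) := mem_alternatingGroup.2 hg
  apply hg1
  have h1 := hB ⟨g, hgA⟩ (fun c hc => by
    have hc' : c ∈ B.toList := Finset.mem_toList.2 hc
    obtain ⟨n, hn, hnc⟩ := List.getElem_of_mem hc'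
    have hbn : b ⟨n, by omega⟩ = c := by
      rw [hb]
      simp only
      rw [List.getD_eq_getElem _ _ hn, hnc]
    apply Subtype.ext
    change (⟨g, hgA⟩ : alternatingGroup (Fin 14)) • c.val = c.val
    ext p
    rw [← Finset.inv_smul_mem_iff]
    have h2 := hgb ⟨n, by omega⟩ (g⁻¹ p)
    simp only [hbn] at h2
    rw [show g (g⁻¹ p) = p by simp] at h2
    exact h2.symm)
  exact congrArg Subtype.val h1

theorem base_univ [Fintype (Set.powersetCard (Fin 14) 5)] :
    IsBase (alternatingGroup (Fin 14))
      ((Finset.univ : Finset (Set.powersetCard (Fin 14) 5)) : Set (Set.powersetCard (Fin 14) 5)) := by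
  intro g hg
  have hF : FaithfulSMul (alternatingGroup (Fin 14)) (Set.powersetCard (Fin 14) 5) :=
    Set.powersetCard.faithfulSMul (by norm_num) (by simp; norm_num)
  apply hF.eq_of_smul_eq_smul
  intro a
  rw [one_smul]
  exact hg a (by simp)

theorem five_le : 5 ≤ baseSize (alternatingGroup (Fin 14)) (Set.powersetCard (Fin 14) 5) := by
  classical
  unfold baseSize
  have : Fintype (Set.powersetCard (Fin 14) 5) := Fintype.ofFinite _
  apply le_csInf
  · exact ⟨_, Finset.univ, rfl, base_univ⟩
  · rintro n ⟨B, rfl, hB⟩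
    exact base_bound B hB

theorem le_four : gammaU (alternatingGroup (Fin 14)) ≤ 4 := by
  unfold gammaU
  apply Nat.sInf_le
  refine ⟨S4, S4_card, S4_tds, sA 0, fun t ht => ?_⟩
  obtain ⟨j, rfl⟩ := S4_mem ht
  exact sA_conj j

/-- Question Q1 has a negative answer: the equality `γ_u(A_n) = b(A_n, Σ_k)` fails for `n = 14`,
where `k = 5`. There is a total dominating set of `A_14` of size 4 inside one conjugacy class of
elements of shape `[7, 7]`, while every base of `A_14` on 5-subsets has at least 5 elements. -/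
theorem result :
    (∃ S : Finset (alternatingGroup (Fin 14)), S.card = 4 ∧
      IsTDS (alternatingGroup (Fin 14)) (S : Set (alternatingGroup (Fin 14))) ∧
      (∀ s ∈ S, ∀ t ∈ S, IsConj s t) ∧ ∀ s ∈ S, (s : Perm (Fin 14)).cycleType = {7, 7}) ∧
    (∀ B : Finset (Set.powersetCard (Fin 14) 5),
      IsBase (alternatingGroup (Fin 14)) (B : Set (Set.powersetCard (Fin 14) 5)) → 5 ≤ B.card) ∧
    (gammaU (alternatingGroup (Fin 14)) ≤ 4 ∧
      5 ≤ baseSize (alternatingGroup (Fin 14)) (Set.powersetCard (Fin 14) 5)) ∧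
    ¬ ∀ m : ℕ, 4 ≤ m → ∀ k : ℕ, IsGreatest {k : ℕ | Odd k ∧ k < m} k →
      gammaU (alternatingGroup (Fin (2 * m))) =
        baseSize (alternatingGroup (Fin (2 * m))) (Set.powersetCard (Fin (2 * m)) k) := by
  refine ⟨⟨S4, S4_card, S4_tds, ?_, ?_⟩, base_bound, ⟨le_four, five_le⟩, ?_⟩
  · intro s hs t ht
    obtain ⟨i, rfl⟩ := S4_mem hs
    obtain ⟨j, rfl⟩ := S4_mem ht
    exact (sA_conj i).symm.trans (sA_conj j)
  · intro s hs
    obtain ⟨i, rfl⟩ := S4_mem hs
    exact sA_type i
  · intro h
    have h1 := h 7 (by norm_num) 5 ⟨⟨by decide, by norm_num⟩, by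
      rintro k ⟨⟨r, hr⟩, hk⟩
      omega⟩
    have h2 : gammaU (alternatingGroup (Fin 14)) =
      baseSize (alternatingGroup (Fin 14)) (Set.powersetCard (Fin 14) 5) := h1
    have h3 := le_four
    have h4 := five_le
    omega

end Pool.Agent.Results.MP_6f5538_al.Degree14
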